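import Pool.Agent.H242.GX.Stm

/-!
# GX-FLAT0: functions which vanish for `y ≤ 0` are flat
-/

set_option autoImplicit false

open Set Filter Topology
open scoped ContDiff

namespace Pool.Agent.H280.GX

open Pool.Agent.H242.GX

theorem zero_of_neg {u : ℝ → ℝ} (hu : Continuous u) (h : ∀ t : ℝ, t < 0 → u t = 0) : u 0 = 0 := by
  have h1 : IsClosed {t : ℝ | u t = 0} := isClosed_eq hu continuous_const
  have h2 : closure (Iio (0 : ℝ)) ⊆ {t : ℝ | u t = 0} := h1.closure_subset_iff.2 fun t ht => h t ht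
  have h3 : (0 : ℝ) ∈ closure (Iio (0 : ℝ)) := by
    rw [closure_Iio]
    exact mem_Iic.2 (le_refl (0 : ℝ))
  exact h2 h3

/-- Periodicity of the quotient. -/
theorem per_quot {f g : ℝ × ℝ → ℝ} (hg : ContDiff ℝ ∞ g) (hfg : ∀ θ t : ℝ, f (θ, t) = t * g (θ, t))
    (hf : ∀ θ t : ℝ, f (θ + 2 * Real.pi, t) = f (θ, t)) (θ t : ℝ) :
    g (θ + 2 * Real.pi, t) = g (θ, t) := by
  have key : ∀ t : ℝ, t ≠ 0 → g (θ + 2 * Real.pi, t) - g (θ, t) = 0 := by
    intro t ht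
    have h1 := hf θ t
    rw [hfg, hfg] at h1
    have h2 := mul_left_cancel₀ ht h1
    rw [h2, sub_self]
  by_cases ht : t = 0
  · subst ht
    have hc : Continuous (fun t : ℝ => g (θ + 2 * Real.pi, t) - g (θ, t)) :=
      (hg.continuous.comp (Continuous.prodMk_right _)).sub
        (hg.continuous.comp (Continuous.prodMk_right _))
    have h1 := zero_of_neg hc fun t ht => key t ht.ne
    linarith
  · have := key t ht
    linarith

theorem fac (hHAD : S_HAD) {P : ℝ × ℝ → ℝ} (hP : ContDiff ℝ ∞ P)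
    (hper : ∀ φ y : ℝ, P (φ + 2 * Real.pi, y) = P (φ, y)) (h0 : ∀ φ y : ℝ, y ≤ 0 → P (φ, y) = 0)
    (N : ℕ) : ∃ R : ℝ × ℝ → ℝ, ContDiff ℝ ∞ R ∧
      (∀ φ y : ℝ, R (φ + 2 * Real.pi, y) = R (φ, y)) ∧ (∀ φ y : ℝ, y ≤ 0 → R (φ, y) = 0) ∧
      ∀ φ y : ℝ, P (φ, y) = y ^ N * R (φ, y) := by
  induction N with
  | zero => exact ⟨P, hP, hper, h0, fun φ y => by rw [pow_zero, one_mul]⟩
  | succ N ih =>
    obtain ⟨R, hR, hRp, hR0, hRP⟩ := ih
    obtain ⟨g, hg, hgR⟩ := hHAD R hR (fun θ => hR0 θ 0 le_rfl)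
    refine ⟨g, hg, per_quot hg hgR hRp, ?_, ?_⟩
    · intro φ y hy
      have key : ∀ t : ℝ, t < 0 → g (φ, t) = 0 := by
        intro t ht
        have h1 := hR0 φ t ht.le
        rw [hgR] at h1
        rcases mul_eq_zero.1 h1 with h2 | h2
        · exact absurd h2 ht.ne
        · exact h2
      rcases lt_or_eq_of_le hy with h | h
      · exact key y h
      · subst h
        exact zero_of_neg (hg.continuous.comp (Continuous.prodMk_right φ)) key
    · intro φ y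
      rw [hRP, hgR, pow_succ]
      ring

theorem gx_FLAT0 (hHAD : S_HAD) : S_FLAT0 := by
  intro X Z hW P hP hper h0 N
  obtain ⟨R, hR, hRp, -, hRP⟩ := fac hHAD hP hper h0 N
  have hX2 : ContDiff ℝ ∞ (fun x => (X x).2) := contDiff_snd.comp hW.smX
  have hX1 : ContDiff ℝ ∞ (fun x => (X x).1) := contDiff_fst.comp hW.smX
  obtain ⟨r, hr, hrX⟩ := hHAD (fun x => (X x).2) hX2 (fun θ => by
    show (X (θ, 0)).2 = 0
    rw [hW.axis])
  have hrp : ∀ θ t : ℝ, r (θ + 2 * Real.pi, t) = r (θ, t) :=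
    per_quot (f := fun x => (X x).2) hr hrX (fun θ t => by
    show (X (θ + 2 * Real.pi, t)).2 = (X (θ, t)).2
    rw [hW.per])
  have hneg : ContDiff ℝ ∞ (fun x : ℝ × ℝ => (x.1, -x.2)) := contDiff_fst.prodMk contDiff_snd.neg
  obtain ⟨q, hq⟩ : ∃ q : ℝ × ℝ → ℝ, q = fun x => r x ^ (2 * N) * R ((X x).1, (X x).2 ^ 2) :=
    ⟨_, rfl⟩
  have hqs : ContDiff ℝ ∞ q := by
    rw [hq]
    exact (hr.pow _).mul (hR.comp (hX1.prodMk (hX2.pow 2)))
  have hqp : ∀ θ t : ℝ, q (θ + 2 * Real.pi, t) = q (θ, t) := by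
    intro θ t
    rw [hq]
    simp only
    rw [hrp, hW.per]
    simp only
    rw [hRp]
  have hqP : ∀ θ t : ℝ, P ((X (θ, t)).1, (X (θ, t)).2 ^ 2) = t ^ (2 * N) * q (θ, t) := by
    intro θ t
    rw [hRP, hq]
    simp only
    have h1 : (X (θ, t)).2 = t * r (θ, t) := hrX θ t
    have h2 : ((X (θ, t)).2 ^ 2) ^ N = t ^ (2 * N) * r (θ, t) ^ (2 * N) := by
      rw [← pow_mul, h1, mul_pow]
    rw [h2]
    ring
  refine ⟨fun x => x.2 ^ N * (q x - q (x.1, -x.2)), ?_, ?_, ?_⟩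
  · exact (contDiff_snd.pow N).mul (hqs.sub (hqs.comp hneg))
  · intro θ t
    simp only
    rw [hqp, hqp]
  · intro θ t
    unfold Pool.Agent.H242.GX.Odd
    rw [hqP, hqP]
    have h1 : (-t) ^ (2 * N) = t ^ (2 * N) := (even_two_mul N).neg_pow t
    rw [h1]
    ring

end Pool.Agent.H280.GX
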