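import Pool.Agent.H242.GX.Stm

/-!
# GX-SIG: even and strictly convex functions on the line
-/

set_option autoImplicit false

open Set Filter Topology
open scoped ContDiff

namespace Pool.Agent.H280.GX

open Pool.Agent.H242.GX

theorem gx_SIG : S_SIG := by
  intro U Y z v r hU hz hY hr heven hpos
  -- the line
  have hL : ∀ t : ℝ, HasDerivAt (fun t : ℝ => z + t • v) v t := by
    intro t
    have h := ((hasDerivAt_id t).smul_const v).const_add z
    simpa using h
  have hLc : Continuous (fun t : ℝ => z + t • v) := by fun_prop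
  have h0U : (fun t : ℝ => z + t • v) 0 ∈ U := by
    simpa using hz
  have hev1 : ∀ᶠ t : ℝ in 𝓝 0, z + t • v ∈ U := hLc.continuousAt.eventually (hU.mem_nhds h0U)
  have hd1 : ContDiffOn ℝ ∞ (fderiv ℝ Y) U := hY.fderiv_of_isOpen hU (by simp)
  have hd2 : ContDiffOn ℝ ∞ (fderiv ℝ (fderiv ℝ Y)) U := hd1.fderiv_of_isOpen hU (by simp)
  have hf1 : ∀ t : ℝ, z + t • v ∈ U →
      HasDerivAt (fun t : ℝ => Y (z + t • v)) (fderiv ℝ Y (z + t • v) v) t := by
    intro t ht
    have h1 : HasFDerivAt Y (fderiv ℝ Y (z + t • v)) (z + t • v) :=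
      ((hY.contDiffAt (hU.mem_nhds ht)).differentiableAt (by simp)).hasFDerivAt
    exact h1.comp_hasDerivAt t (hL t)
  have hf2 : ∀ t : ℝ, z + t • v ∈ U →
      HasDerivAt (fun t : ℝ => fderiv ℝ Y (z + t • v) v)
        (fderiv ℝ (fderiv ℝ Y) (z + t • v) v v) t := by
    intro t ht
    have h1 : HasFDerivAt (fderiv ℝ Y) (fderiv ℝ (fderiv ℝ Y) (z + t • v)) (z + t • v) :=
      ((hd1.contDiffAt (hU.mem_nhds ht)).differentiableAt (by simp)).hasFDerivAt
    have h2 := h1.comp_hasDerivAt t (hL t)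
    exact (ContinuousLinearMap.apply ℝ ℝ v).hasFDerivAt.comp_hasDerivAt t h2
  -- the second derivative is positive near `0`
  have hc2 : ContinuousAt (fun t : ℝ => fderiv ℝ (fderiv ℝ Y) (z + t • v) v v) 0 := by
    have h1 : ContinuousAt (fderiv ℝ (fderiv ℝ Y)) ((fun t : ℝ => z + t • v) 0) :=
      (hd2.contDiffAt (hU.mem_nhds h0U)).continuousAt
    have h2 : ContinuousAt (fun t : ℝ => fderiv ℝ (fderiv ℝ Y) (z + t • v)) 0 :=
      ContinuousAt.comp (f := fun t : ℝ => z + t • v) h1 hLc.continuousAt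
    exact (h2.clm_apply continuousAt_const).clm_apply continuousAt_const
  have hev2 : ∀ᶠ t : ℝ in 𝓝 0, 0 < fderiv ℝ (fderiv ℝ Y) (z + t • v) v v := by
    refine hc2.eventually_const_lt ?_
    simpa using hpos
  have hev3 : ∀ᶠ t : ℝ in 𝓝 0, |t| < r := by
    have h1 : ContinuousAt (fun t : ℝ => |t|) 0 := continuous_abs.continuousAt
    refine h1.eventually_lt_const ?_
    simpa using hr
  obtain ⟨ρ, hρ, hρs⟩ := Metric.eventually_nhds_iff.1 (hev1.and (hev2.and hev3))
  have hρ' : ∀ t : ℝ, |t| < ρ → z + t • v ∈ U ∧ 0 < fderiv ℝ (fderiv ℝ Y) (z + t • v) v v ∧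
      |t| < r := by
    intro t ht
    apply hρs
    rw [Real.dist_eq, sub_zero]
    exact ht
  -- the first derivative vanishes at `0`
  have hf10 : fderiv ℝ Y (z + (0 : ℝ) • v) v = 0 := by
    have h1 := hf1 0 h0U
    have h2 : HasDerivAt (fun t : ℝ => Y (z + (-t) • v)) (-(fderiv ℝ Y (z + (0 : ℝ) • v) v)) 0 := by
      have h3 : HasDerivAt (fun t : ℝ => -t) (-1) 0 := hasDerivAt_neg 0
      have h4 : HasDerivAt (fun t : ℝ => Y (z + t • v)) (fderiv ℝ Y (z + (0 : ℝ) • v) v) (-0) := by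
        rw [neg_zero]
        exact h1
      have h5 := h4.scomp (0 : ℝ) h3
      have h6 : (-1 : ℝ) • fderiv ℝ Y (z + (0 : ℝ) • v) v = -(fderiv ℝ Y (z + (0 : ℝ) • v) v) := by
        rw [neg_smul, one_smul]
      rw [← h6]
      exact h5
    have h3 : (fun t : ℝ => Y (z + (-t) • v)) =ᶠ[𝓝 0] fun t : ℝ => Y (z + t • v) := by
      filter_upwards [hev3] with t ht
      rw [neg_smul, ← sub_eq_add_neg]
      exact (heven t ht).symm
    have h4 := h2.congr_of_eventuallyEq h3.symm
    have h5 := h1.unique h4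
    linarith
  -- the first derivative is strictly monotone
  have hmono : StrictMonoOn (fun t : ℝ => fderiv ℝ Y (z + t • v) v) (Ioo (-ρ) ρ) := by
    refine strictMonoOn_of_deriv_pos (convex_Ioo _ _) ?_ ?_
    · intro t ht
      exact (hf2 t (hρ' t (abs_lt.2 ht)).1).continuousAt.continuousWithinAt
    · intro t ht
      rw [interior_Ioo] at ht
      have h1 := hρ' t (abs_lt.2 ht)
      rw [(hf2 t h1.1).deriv]
      exact h1.2.1
  have hpos1 : ∀ t : ℝ, 0 < t → t < ρ → 0 < fderiv ℝ Y (z + t • v) v := by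
    intro t ht1 ht2
    have h1 := hmono (show (0 : ℝ) ∈ Ioo (-ρ) ρ from ⟨by linarith, hρ⟩)
      (show t ∈ Ioo (-ρ) ρ from ⟨by linarith, ht2⟩) ht1
    simp only [hf10] at h1
    exact h1
  have hneg1 : ∀ t : ℝ, t < 0 → -ρ < t → fderiv ℝ Y (z + t • v) v < 0 := by
    intro t ht1 ht2
    have h1 := hmono (show t ∈ Ioo (-ρ) ρ from ⟨ht2, by linarith⟩)
      (show (0 : ℝ) ∈ Ioo (-ρ) ρ from ⟨by linarith, hρ⟩) ht1
    simp only [hf10] at h1
    exact h1
  refine ⟨ρ / 2, by positivity, ?_, ?_, ?_, -1, 0, 0, 1, by norm_num, ρ / 2, by positivity,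
    le_rfl, ?_⟩
  · intro t ht
    exact (hρ' t (by linarith)).1
  · refine strictAntiOn_of_deriv_neg (convex_Icc _ _) ?_ ?_
    · intro t ht
      have h1 : |t| < ρ := abs_lt.2 ⟨by linarith [ht.1], by linarith [ht.2]⟩
      exact (hf1 t (hρ' t h1).1).continuousAt.continuousWithinAt
    · intro t ht
      rw [interior_Icc] at ht
      have h1 : |t| < ρ := abs_lt.2 ⟨by linarith [ht.1], by linarith [ht.2]⟩
      rw [(hf1 t (hρ' t h1).1).deriv]
      exact hneg1 t ht.2 (by linarith [ht.1])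
  · refine strictMonoOn_of_deriv_pos (convex_Icc _ _) ?_ ?_
    · intro t ht
      have h1 : |t| < ρ := abs_lt.2 ⟨by linarith [ht.1], by linarith [ht.2]⟩
      exact (hf1 t (hρ' t h1).1).continuousAt.continuousWithinAt
    · intro t ht
      rw [interior_Icc] at ht
      have h1 : |t| < ρ := abs_lt.2 ⟨by linarith [ht.1], by linarith [ht.2]⟩
      rw [(hf1 t (hρ' t h1).1).deriv]
      exact hpos1 t ht.1 (by linarith [ht.2])
  · intro t ht
    have h1 : (-1 * t + 0) / (0 * t + 1) = -t := by ring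
    rw [h1]
    refine ⟨by norm_num, by rw [abs_neg]; exact ht.le, ?_, ?_⟩
    · intro h0
      have h2 : 0 < t ^ 2 := by positivity
      nlinarith
    · rw [neg_smul, ← sub_eq_add_neg]
      exact (heven t (hρ' t (by linarith)).2.2).symm

end Pool.Agent.H280.GX
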